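import Mathlib

/-!
# The space of points of a locally temperate frame is locally strongly sober
-/

namespace Pool.Agent.Results.MP_405999_gt.TemperatePoints

open Set Topology

universe u

variable {L : Type u} [Order.Frame L]

/-- `F` is a filter on `L`: it contains the top element, it is an upper set and it is closed under
binary meets. -/
def IsFilt (F : Set L) : Prop :=
  ⊤ ∈ F ∧ (∀ a ∈ F, ∀ b, a ≤ b → b ∈ F) ∧ ∀ a ∈ F, ∀ b ∈ F, a ⊓ b ∈ F

/-- Completely prime filters: if the join of a family belongs to the filter then some member of the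
family does. -/
def IsCompletelyPrime (F : Set L) : Prop :=
  IsFilt F ∧ ∀ S : Set L, sSup S ∈ F → ∃ a ∈ S, a ∈ F

/-- Scott-open filters: if the supremum of a directed family belongs to the filter then some member
of the family does. -/
def IsScottOpenFilter (F : Set L) : Prop :=
  IsFilt F ∧ ∀ D : Set L, D.Nonempty → DirectedOn (· ≤ ·) D → sSup D ∈ F → ∃ a ∈ D, a ∈ F

/-- The join `{u ∧ v : u ∈ F, v ∈ G}` of two filters. -/
def filterJoin (F G : Set L) : Set L := {w | ∃ a ∈ F, ∃ b ∈ G, w = a ⊓ b}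

variable (L) in
/-- A frame is locally temperate if the join of any two Scott-open filters is Scott-open. -/
def LocallyTemperate : Prop :=
  ∀ F G : Set L, IsScottOpenFilter F → IsScottOpenFilter G → IsScottOpenFilter (filterJoin F G)

variable (L) in
/-- The points of `L`: its completely prime filters. -/
def Pt : Type u := {x : Set L // IsCompletelyPrime x}

/-- The set `O_u` of all points that contain `u`. -/
def O (a : L) : Set (Pt L) := {x | a ∈ x.1}

/-- The open sets of the space of points are the sets `O_u`, `u ∈ L`. -/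
instance : TopologicalSpace (Pt L) where
  IsOpen U := ∃ a : L, U = O a
  isOpen_univ := ⟨⊤, by
    ext x
    exact ⟨fun _ => x.2.1.1, fun _ => trivial⟩⟩
  isOpen_inter := by
    rintro _ _ ⟨a, rfl⟩ ⟨b, rfl⟩
    refine ⟨a ⊓ b, ?_⟩
    ext x
    constructor
    · rintro ⟨h1, h2⟩
      exact x.2.1.2.2 a h1 b h2
    · intro h
      exact ⟨x.2.1.2.1 _ h _ inf_le_left, x.2.1.2.1 _ h _ inf_le_right⟩
  isOpen_sUnion := by
    intro S hS
    refine ⟨sSup {a | O a ∈ S}, ?_⟩
    ext x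
    constructor
    · rintro ⟨U, hU, hx⟩
      obtain ⟨a, rfl⟩ := hS U hU
      exact x.2.1.2.1 a hx _ (le_sSup hU)
    · intro h
      obtain ⟨a, ha, hax⟩ := x.2.2 _ h
      exact ⟨O a, ha, hax⟩

/-- A space is locally strongly sober if for every ultrafilter the set of its limits is empty or
equals the closure of exactly one point. -/
def LocallyStronglySober (X : Type*) [TopologicalSpace X] : Prop :=
  ∀ 𝒰 : Ultrafilter X, {x | (𝒰 : Filter X) ≤ 𝓝 x} = ∅ ∨
    ∃! x : X, {y | (𝒰 : Filter X) ≤ 𝓝 y} = closure {x}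

lemma isOpen_O (a : L) : IsOpen (O a : Set (Pt L)) := ⟨a, rfl⟩

lemma isOpen_iff (U : Set (Pt L)) : IsOpen U ↔ ∃ a : L, U = O a := Iff.rfl

lemma mem_closure_iff' (x y : Pt L) : y ∈ closure {x} ↔ y.1 ⊆ x.1 := by
  rw [mem_closure_iff]
  constructor
  · intro h a ha
    obtain ⟨z, hz, hzx⟩ := h (O a) (isOpen_O a) ha
    rw [mem_singleton_iff] at hzx
    subst hzx
    exact hz
  · rintro h _ ⟨a, rfl⟩ ha
    exact ⟨x, h ha, rfl⟩

lemma le_nhds_iff (𝒰 : Ultrafilter (Pt L)) (x : Pt L) :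
    (𝒰 : Filter (Pt L)) ≤ 𝓝 x ↔ ∀ a ∈ x.1, O a ∈ 𝒰 := by
  constructor
  · intro h a ha
    exact h ((isOpen_O a).mem_nhds ha)
  · intro h U hU
    obtain ⟨V, hVU, ⟨a, rfl⟩, hx⟩ := mem_nhds_iff.1 hU
    exact Filter.mem_of_superset (h a hx) hVU

lemma scottOpen_of_completelyPrime {F : Set L} (hF : IsCompletelyPrime F) : IsScottOpenFilter F :=
  ⟨hF.1, fun D _ _ h => hF.2 D h⟩

/-- A Scott-open filter is the intersection of the completely prime filters containing it. -/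
lemma exists_point {F : Set L} (hF : IsScottOpenFilter F) {w : L} (hw : w ∉ F) :
    ∃ z : Pt L, F ⊆ z.1 ∧ w ∉ z.1 := by
  obtain ⟨p, hwp, hp⟩ := zorn_le_nonempty₀ {v : L | w ≤ v ∧ v ∉ F} (by
    intro c hc hchain y hy
    refine ⟨sSup c, ⟨(hc hy).1.trans (le_sSup hy), ?_⟩, fun z hz => le_sSup hz⟩
    intro hmem
    obtain ⟨a, hac, haF⟩ := hF.2 c ⟨y, hy⟩ hchain.directedOn hmem
    exact (hc hac).2 haF) w ⟨le_rfl, hw⟩
  have hpF : p ∉ F := hp.prop.2
  have hmax : ∀ a : L, ¬ a ≤ p → a ⊔ p ∈ F := by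
    intro a ha
    by_contra hn
    exact ha (le_sup_left.trans (hp.le_of_ge ⟨hwp.trans le_sup_right, hn⟩ le_sup_right))
  refine ⟨⟨{v | ¬ v ≤ p}, ⟨?_, ?_, ?_⟩, ?_⟩, ?_, ?_⟩
  · intro h
    exact hpF (hF.1.2.1 _ hF.1.1 _ h)
  · intro a ha b hab hb
    exact ha (hab.trans hb)
  · intro a ha b hb hab
    have h1 := hF.1.2.2 _ (hmax a ha) _ (hmax b hb)
    rw [← sup_inf_right, sup_eq_right.2 hab] at h1
    exact hpF h1
  · intro S hS
    by_contra hn
    push Not at hn
    apply hS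
    apply sSup_le
    intro a ha
    by_contra hap
    exact hn a ha hap
  · intro v hv hvp
    exact hpF (hF.1.2.1 _ hv _ hvp)
  · intro h
    exact h hwp

/-- Two limits of an ultrafilter: if `u` belongs to the first and `v` to the second then `u ∧ v`
belongs to a third limit. -/
lemma exists_limit (hL : LocallyTemperate L) (𝒰 : Ultrafilter (Pt L)) {x y : Pt L}
    (hx : (𝒰 : Filter (Pt L)) ≤ 𝓝 x) (hy : (𝒰 : Filter (Pt L)) ≤ 𝓝 y) {a b : L} (ha : a ∈ x.1)
    (hb : b ∈ y.1) : ∃ z : Pt L, (𝒰 : Filter (Pt L)) ≤ 𝓝 z ∧ a ⊓ b ∈ z.1 := by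
  by_contra hno
  push Not at hno
  have hJ := hL x.1 y.1 (scottOpen_of_completelyPrime x.2) (scottOpen_of_completelyPrime y.2)
  have hab : a ⊓ b ∈ filterJoin x.1 y.1 := ⟨a, ha, b, hb, rfl⟩
  let D : Set L := {w | O w ∉ 𝒰}
  have hbot : (⊥ : L) ∈ D := by
    intro h
    have : (O (⊥ : L) : Set (Pt L)) = ∅ := by
      ext z
      simp only [mem_empty_iff_false, iff_false]
      intro hz
      have hz' : sSup (∅ : Set L) ∈ z.1 := by
        rw [sSup_empty]
        exact hz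
      obtain ⟨c, hc, -⟩ := z.2.2 ∅ hz'
      exact hc
    rw [this] at h
    exact 𝒰.empty_notMem h
  have hdir : DirectedOn (· ≤ ·) D := by
    intro c hc d hd
    refine ⟨c ⊔ d, ?_, le_sup_left, le_sup_right⟩
    intro h
    have hsub : (O (c ⊔ d) : Set (Pt L)) ⊆ O c ∪ O d := by
      intro z hz
      have hz' : sSup ({c, d} : Set L) ∈ z.1 := by
        rw [sSup_pair]
        exact hz
      obtain ⟨e, he, hez⟩ := z.2.2 _ hz'
      rcases he with rfl | he
      · exact Or.inl hez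
      · rw [mem_singleton_iff] at he
        subst he
        exact Or.inr hez
    rcases Ultrafilter.union_mem_iff.1 (Filter.mem_of_superset h hsub) with h1 | h1
    · exact hc h1
    · exact hd h1
  have hmem : sSup D ∈ filterJoin x.1 y.1 := by
    by_contra hn
    obtain ⟨z, hz, hzD⟩ := exists_point hJ hn
    have hzlim : ¬ (𝒰 : Filter (Pt L)) ≤ 𝓝 z := fun h => hno z h (hz hab)
    rw [le_nhds_iff] at hzlim
    push Not at hzlim
    obtain ⟨w, hw, hwU⟩ := hzlim
    exact hzD (z.2.1.2.1 _ hw _ (le_sSup hwU))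
  obtain ⟨w, hwD, hwJ⟩ := hJ.2 D ⟨⊥, hbot⟩ hdir hmem
  obtain ⟨c, hc, d, hd, rfl⟩ := hwJ
  apply hwD
  have h1 := (le_nhds_iff 𝒰 x).1 hx c hc
  have h2 := (le_nhds_iff 𝒰 y).1 hy d hd
  refine Filter.mem_of_superset (Filter.inter_mem h1 h2) ?_
  rintro z ⟨h3, h4⟩
  exact z.2.1.2.2 _ h3 _ h4

/-- For every locally temperate frame `L` the space of points of `L` is locally strongly sober. -/
theorem result (L : Type u) [Order.Frame L] (hL : LocallyTemperate L) :
    LocallyStronglySober (Pt L) := by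
  intro 𝒰
  rcases eq_empty_or_nonempty {x | (𝒰 : Filter (Pt L)) ≤ 𝓝 x} with h | h
  · exact Or.inl h
  right
  obtain ⟨x₁, hx₁⟩ := h
  have hcp : IsCompletelyPrime {a : L | ∃ z : Pt L, (𝒰 : Filter (Pt L)) ≤ 𝓝 z ∧ a ∈ z.1} := by
    refine ⟨⟨⟨x₁, hx₁, x₁.2.1.1⟩, ?_, ?_⟩, ?_⟩
    · rintro a ⟨z, hz, haz⟩ b hab
      exact ⟨z, hz, z.2.1.2.1 _ haz _ hab⟩
    · rintro a ⟨z, hz, haz⟩ b ⟨z', hz', hbz'⟩
      exact exists_limit hL 𝒰 hz hz' haz hbz'
    · rintro S ⟨z, hz, hS⟩
      obtain ⟨a, haS, haz⟩ := z.2.2 S hS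
      exact ⟨a, haS, z, hz, haz⟩
  let x₀ : Pt L := ⟨_, hcp⟩
  refine ⟨x₀, ?_, ?_⟩
  · ext y
    refine Iff.trans ?_ (mem_closure_iff' x₀ y).symm
    constructor
    · intro hy a ha
      exact ⟨y, hy, ha⟩
    · intro hy
      refine (le_nhds_iff 𝒰 y).2 fun a ha => ?_
      obtain ⟨z, hz, haz⟩ := hy ha
      exact (le_nhds_iff 𝒰 z).1 hz a haz
  · intro x' hx'
    have h1 : ∀ y : Pt L, (𝒰 : Filter (Pt L)) ≤ 𝓝 y ↔ y.1 ⊆ x'.1 := by
      intro y
      rw [← mem_closure_iff', ← hx']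
      rfl
    apply Subtype.ext
    apply Subset.antisymm
    · intro a ha
      exact ⟨x', (h1 x').2 Subset.rfl, ha⟩
    · rintro a ⟨z, hz, haz⟩
      exact (h1 z).1 hz haz

end Pool.Agent.Results.MP_405999_gt.TemperatePoints
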